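import Mathlib
import Pool.Agent.Y733.LS.Cnt
import Pool.Agent.Y733.LS.Bad
import Pool.Agent.TH876.FH.Ana
import Pool.Agent.TH876.FH.Hj

/-!
# The exponents of the minimal discriminant at one prime

The definition of `discExp` and the first lemmas follow `Pool/Agent/Y729/AE/Min.lean` (helper729).
-/

set_option autoImplicit false
set_option linter.unusedSectionVars false

namespace Pool.Agent.Y733.FF

open NumberField IsDedekindDomain Pool.Agent.H691R3 Pool.Agent.W223.AK Pool.Agent.Y733.LS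
open Pool.Agent.TH876.FH (GoodAt)

variable {K : Type} [Field K] [NumberField K]

/-- the equation is integral at `v` -/
def IntAt (v : HeightOneSpectrum (𝓞 K)) (E : WeierstrassCurve K) : Prop :=
  v.valuation K E.a₁ ≤ 1 ∧ v.valuation K E.a₂ ≤ 1 ∧ v.valuation K E.a₃ ≤ 1 ∧
    v.valuation K E.a₄ ≤ 1 ∧ v.valuation K E.a₆ ≤ 1

/-- the exponent of `v` in the minimal discriminant -/
noncomputable def discExp (v : HeightOneSpectrum (𝓞 K)) (E : WeierstrassCurve K) : ℕ :=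
  sInf {m : ℕ | ∃ C : WeierstrassCurve.VariableChange K, IntAt v (C • E) ∧
    v.valuation K (C • E).Δ = WithZero.exp (-(m : ℤ))}

/-- semistable reduction at `v` -/
def SemiAt (v : HeightOneSpectrum (𝓞 K)) (E : WeierstrassCurve K) : Prop :=
  ∃ C : WeierstrassCurve.VariableChange K,
    v.valuation K (C • E).a₁ ≤ 1 ∧ v.valuation K (C • E).a₂ ≤ 1 ∧ v.valuation K (C • E).a₃ ≤ 1 ∧
    v.valuation K (C • E).a₄ ≤ 1 ∧ v.valuation K (C • E).a₆ ≤ 1 ∧
    (v.valuation K (C • E).Δ = 1 ∨ v.valuation K (C • E).c₄ = 1)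

theorem bad_fin (E : WeierstrassCurve K) (hE : E.Δ ≠ 0) :
    {v : HeightOneSpectrum (𝓞 K) | ¬ GoodAt v E}.Finite := by
  have hf := fun k : K => HeightOneSpectrum.Support.finite (𝓞 K) k
  refine ((hf E.a₁).union ((hf E.a₂).union ((hf E.a₃).union ((hf E.a₄).union
    ((hf E.a₆).union ((hf E.Δ).union (hf E.Δ⁻¹))))))).subset ?_
  intro v hv
  by_contra hc
  simp only [HeightOneSpectrum.Support, Set.mem_union, Set.mem_ofPred_eq, not_or, not_lt] at hc
  obtain ⟨c1, c2, c3, c4, c6, c7, c8⟩ := hc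
  apply hv
  refine ⟨1, ?_⟩
  rw [one_smul]
  refine ⟨c1, c2, c3, c4, c6, le_antisymm c7 ?_⟩
  have h0 : v.valuation K E.Δ ≠ 0 := (Valuation.ne_zero_iff _).2 hE
  rw [map_inv₀] at c8
  exact (inv_le_one₀ (zero_lt_iff.2 h0)).1 c8

theorem int_disc (v : HeightOneSpectrum (𝓞 K)) (E : WeierstrassCurve K) (h : IntAt v E) :
    v.valuation K E.Δ ≤ 1 ∧ v.valuation K E.c₄ ≤ 1 := by
  obtain ⟨h1, h2, h3, h4, h6⟩ := h
  obtain ⟨W, hW⟩ : ∃ W : WeierstrassCurve (v.valuation K).integer,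
      W.map (v.valuation K).integer.subtype = E :=
    ⟨⟨⟨E.a₁, h1⟩, ⟨E.a₂, h2⟩, ⟨E.a₃, h3⟩, ⟨E.a₄, h4⟩, ⟨E.a₆, h6⟩⟩, rfl⟩
  rw [← hW, WeierstrassCurve.map_Δ, WeierstrassCurve.map_c₄]
  exact ⟨W.Δ.2, W.c₄.2⟩

theorem val_exp (v : HeightOneSpectrum (𝓞 K)) {x : K} (h0 : x ≠ 0) (h1 : v.valuation K x ≤ 1) :
    ∃ m : ℕ, v.valuation K x = WithZero.exp (-(m : ℤ)) := by
  have hx : v.valuation K x ≠ 0 := (v.valuation K).ne_zero_iff.2 h0
  obtain ⟨a, ha⟩ : ∃ a : ℤ, v.valuation K x = WithZero.exp a := ⟨_, (WithZero.exp_log hx).symm⟩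
  have ha0 : a ≤ 0 := by
    rw [ha, ← WithZero.exp_zero] at h1
    exact WithZero.exp_le_exp.1 h1
  refine ⟨a.natAbs, ?_⟩
  rw [ha]
  congr 1
  omega

theorem fv_val (v : HeightOneSpectrum (𝓞 K)) (x : K) :
    fv v x = ((WithZeroMulInt.toNNReal (NumberField.HeightOneSpectrum.absNorm_ne_zero v)
      (v.valuation K x) : NNReal) : ℝ) := NumberField.FinitePlace.norm_embedding' (v := v) (x := x)

theorem fv_exp (v : HeightOneSpectrum (𝓞 K)) {x : K} {m : ℕ}
    (h : v.valuation K x = WithZero.exp (-(m : ℤ))) :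
    Real.log (fv v x) = -((m : ℝ) * Real.log (Nv v)) := by
  have h1 : WithZeroMulInt.toNNReal (NumberField.HeightOneSpectrum.absNorm_ne_zero v)
      (WithZero.exp (-(m : ℤ))) = (Ideal.absNorm v.asIdeal : NNReal) ^ (-(m : ℤ)) := by
    rw [WithZeroMulInt.toNNReal_neg_apply _ WithZero.exp_ne_zero]
    rfl
  rw [fv_val, h, h1]
  push_cast
  rw [Real.log_zpow]
  push_cast
  unfold Nv
  ring

theorem fv_le_one_iff (v : HeightOneSpectrum (𝓞 K)) {x : K} :
    fv v x ≤ 1 ↔ v.valuation K x ≤ 1 := by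
  rw [fv_val]
  have := WithZeroMulInt.toNNReal_le_one_iff (e := (Ideal.absNorm v.asIdeal : NNReal))
    (m := v.valuation K x) (by exact_mod_cast NumberField.HeightOneSpectrum.one_lt_absNorm v)
  exact_mod_cast this

theorem fv_one_iff (v : HeightOneSpectrum (𝓞 K)) {x : K} :
    fv v x = 1 ↔ v.valuation K x = 1 := by
  have hN : 1 < Ideal.absNorm v.asIdeal := NumberField.HeightOneSpectrum.one_lt_absNorm v
  rw [fv_val, NNReal.coe_eq_one, WithZeroMulInt.toNNReal_eq_one_iff]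
  intro h1
  have h2 : Ideal.absNorm v.asIdeal = 1 := by exact_mod_cast h1
  omega

/-- an integral equation bounds the minimal discriminant -/
theorem disc_le (v : HeightOneSpectrum (𝓞 K)) (E : WeierstrassCurve K)
    (C : WeierstrassCurve.VariableChange K) (h : IntAt v (C • E)) (h0 : (C • E).Δ ≠ 0) :
    (discExp v E : ℝ) * Real.log (Nv v) ≤ -Real.log (fv v (C • E).Δ) := by
  obtain ⟨m, hm⟩ := val_exp v h0 (int_disc v _ h).1
  have h1 : discExp v E ≤ m := Nat.sInf_le ⟨C, h, hm⟩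
  rw [fv_exp v hm, neg_neg]
  refine mul_le_mul_of_nonneg_right ?_ (log_Nv_pos v).le
  exact_mod_cast h1

theorem disc_ne (E : WeierstrassCurve K) (hE : E.Δ ≠ 0) (C : WeierstrassCurve.VariableChange K) :
    (C • E).Δ ≠ 0 := by
  rw [WeierstrassCurve.variableChange_Δ]
  exact mul_ne_zero (pow_ne_zero _ (Units.ne_zero _)) hE

theorem j_change (E : WeierstrassCurve K) (hE : E.Δ ≠ 0)
    (C : WeierstrassCurve.VariableChange K) :
    E.c₄ ^ 3 / E.Δ = (C • E).c₄ ^ 3 / (C • E).Δ := by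
  rw [WeierstrassCurve.variableChange_c₄, WeierstrassCurve.variableChange_Δ]
  have : ((C.u⁻¹ : Kˣ) : K) ≠ 0 := Units.ne_zero _
  rw [div_eq_div_iff hE (mul_ne_zero (pow_ne_zero _ this) hE)]
  ring

theorem disc_good (v : HeightOneSpectrum (𝓞 K)) (E : WeierstrassCurve K) (h : GoodAt v E) :
    discExp v E = 0 := by
  obtain ⟨C, h1, h2, h3, h4, h6, hΔ⟩ := h
  have : discExp v E ≤ 0 := Nat.sInf_le ⟨C, ⟨h1, h2, h3, h4, h6⟩, by
    rw [hΔ]
    simp⟩
  omega

/-- no pole at a prime of good reduction -/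
theorem good_int (v : HeightOneSpectrum (𝓞 K)) (E : WeierstrassCurve K) (hE : E.Δ ≠ 0)
    (h : GoodAt v E) : fv v (E.c₄ ^ 3 / E.Δ) ≤ 1 := by
  obtain ⟨C, h1, h2, h3, h4, h6, hΔ⟩ := h
  rw [j_change E hE C, map_div₀, map_pow, (fv_one_iff v).2 hΔ, div_one]
  exact pow_le_one₀ ((fv v).nonneg _)
    ((fv_le_one_iff v).2 (int_disc v _ ⟨h1, h2, h3, h4, h6⟩).2)

/-- a prime of semistable reduction -/
theorem semi_disc (v : HeightOneSpectrum (𝓞 K)) (E : WeierstrassCurve K) (hE : E.Δ ≠ 0)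
    (h : SemiAt v E) : (discExp v E : ℝ) * Real.log (Nv v) ≤
      Real.log (max (fv v (E.c₄ ^ 3 / E.Δ)) 1) := by
  obtain ⟨C, h1, h2, h3, h4, h6, h7⟩ := h
  have h0 := disc_ne E hE C
  refine (disc_le v E C ⟨h1, h2, h3, h4, h6⟩ h0).trans ?_
  rcases h7 with h7 | h7
  · rw [(fv_one_iff v).2 h7, Real.log_one, neg_zero]
    exact Real.log_nonneg (le_max_right _ _)
  · rw [j_change E hE C, map_div₀, map_pow, (fv_one_iff v).2 h7, one_pow, ← Real.log_inv]
    refine Real.log_le_log (inv_pos.2 ((fv v).pos h0)) ?_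
    rw [one_div]
    exact le_max_left _ _

/-- the short equation -/
theorem short (E : WeierstrassCurve K) (u : Kˣ) : ∃ C : WeierstrassCurve.VariableChange K,
    (C • E).a₁ = 0 ∧ (C • E).a₂ = 0 ∧ (C • E).a₃ = 0 ∧
    (C • E).a₄ = -(E.c₄ / 48) * ((u⁻¹ : Kˣ) : K) ^ 4 ∧
    (C • E).a₆ = -(E.c₆ / 864) * ((u⁻¹ : Kˣ) : K) ^ 6 ∧
    (C • E).Δ = ((u⁻¹ : Kˣ) : K) ^ 12 * E.Δ := by
  refine ⟨⟨u, -(E.b₂ / 12), -(E.a₁ / 2), -((E.a₃ - E.b₂ / 12 * E.a₁) / 2)⟩, ?_, ?_, ?_, ?_, ?_, ?_⟩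
  · rw [WeierstrassCurve.variableChange_a₁]
    ring
  · rw [WeierstrassCurve.variableChange_a₂]
    simp only [WeierstrassCurve.b₂]
    ring
  · rw [WeierstrassCurve.variableChange_a₃]
    ring
  · rw [WeierstrassCurve.variableChange_a₄]
    simp only [WeierstrassCurve.c₄, WeierstrassCurve.b₂, WeierstrassCurve.b₄]
    ring
  · rw [WeierstrassCurve.variableChange_a₆]
    simp only [WeierstrassCurve.c₆, WeierstrassCurve.b₂, WeierstrassCurve.b₄,
      WeierstrassCurve.b₆]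
    ring
  · rw [WeierstrassCurve.variableChange_Δ]

end Pool.Agent.Y733.FF
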