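import Mathlib
import Pool.Agent.Y733.FF.Disc

/-!
# The minimal discriminant, the simple poles of `j` and the conductor at one prime
-/

set_option autoImplicit false
set_option linter.unusedSectionVars false

namespace Pool.Agent.Y733.FF

open NumberField IsDedekindDomain Pool.Agent.H691R3 Pool.Agent.W223.AK Pool.Agent.Y733.LS
open Pool.Agent.TH876.FH (GoodAt)

variable {K : Type} [Field K] [NumberField K]

/-- a bound for the minimal discriminant -/
theorem disc_k (v : Pr K) (E : WeierstrassCurve K) (hE : E.Δ ≠ 0) (k : ℤ)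
    (h4 : fv v (E.c₄ / 48) ≤ (Nv v) ^ (4 * k)) (h6 : fv v (E.c₆ / 864) ≤ (Nv v) ^ (6 * k)) :
    (discExp v E : ℝ) * Real.log (Nv v) ≤ -Real.log (fv v E.Δ) + 12 * k * Real.log (Nv v) := by
  have hN : 0 < Nv v := lt_trans one_pos (Nv_one_lt v)
  obtain ⟨u, hu⟩ := exists_fv v k
  have hu0 : u ≠ 0 := by
    rintro rfl
    rw [map_zero] at hu
    exact absurd hu.symm (zpow_ne_zero _ hN.ne')
  obtain ⟨C, c1, c2, c3, c4, c6, c7⟩ := short E (Units.mk0 u hu0)
  have e : (((Units.mk0 u hu0)⁻¹ : Kˣ) : K) = u⁻¹ := rfl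
  rw [e] at c4 c6 c7
  have h0 := disc_ne E hE C
  have hle : ∀ x : K, ∀ m : ℕ, fv v x ≤ (Nv v) ^ ((m : ℤ) * k) →
      fv v (-x * u⁻¹ ^ m) ≤ 1 := by
    intro x m hx
    rw [map_mul, map_neg_eq_map, map_pow, map_inv₀, hu, inv_pow, ← div_eq_mul_inv,
      div_le_one (pow_pos (zpow_pos hN _) _)]
    refine hx.trans (le_of_eq ?_)
    rw [mul_comm, zpow_mul, zpow_natCast]
  refine (disc_le v E C ⟨?_, ?_, ?_, ?_, ?_⟩ h0).trans (le_of_eq ?_)
  · rw [c1, map_zero]; exact zero_le_one
  · rw [c2, map_zero]; exact zero_le_one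
  · rw [c3, map_zero]; exact zero_le_one
  · rw [c4, ← fv_le_one_iff v]
    exact hle _ 4 (by exact_mod_cast h4)
  · rw [c6, ← fv_le_one_iff v]
    exact hle _ 6 (by exact_mod_cast h6)
  · rw [c7, map_mul, map_pow, map_inv₀, hu, Real.log_mul
      (pow_ne_zero _ (inv_ne_zero (zpow_ne_zero _ hN.ne'))) ((fv v).pos hE).ne', Real.log_pow,
      Real.log_inv, Real.log_zpow]
    push_cast
    ring

/-- the best `k` -/
theorem exists_k (v : Pr K) {x y : K} (hxy : x ≠ 0 ∨ y ≠ 0) : ∃ k : ℤ,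
    fv v x ≤ (Nv v) ^ (4 * k) ∧ fv v y ≤ (Nv v) ^ (6 * k) ∧
    ((Nv v) ^ (4 * (k - 1)) < fv v x ∨ (Nv v) ^ (6 * (k - 1)) < fv v y) := by
  have hN : 1 < Nv v := Nv_one_lt v
  have hex : ∀ z : K, ∃ m : ℤ, fv v z ≤ (Nv v) ^ m := by
    intro z
    rcases eq_or_ne z 0 with rfl | hz
    · exact ⟨0, by rw [map_zero]; positivity⟩
    · obtain ⟨m, hm⟩ := fv_zpow v hz
      exact ⟨m, hm.le⟩
  obtain ⟨a, ha⟩ := hex x
  obtain ⟨b, hb⟩ := hex y
  have hlow : ∃ m : ℤ, ∀ k : ℤ,
      (fv v x ≤ (Nv v) ^ (4 * k) ∧ fv v y ≤ (Nv v) ^ (6 * k)) → m ≤ k := by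
    rcases hxy with h | h
    · obtain ⟨m, hm⟩ := fv_zpow v h
      refine ⟨-|m|, fun k hk => ?_⟩
      have h1 := hk.1
      rw [hm] at h1
      have h2 := (zpow_le_zpow_iff_right₀ hN).1 h1
      have := neg_abs_le m
      rcases le_or_gt 0 k with h3 | h3
      · have := abs_nonneg m
        omega
      · omega
    · obtain ⟨m, hm⟩ := fv_zpow v h
      refine ⟨-|m|, fun k hk => ?_⟩
      have h1 := hk.2
      rw [hm] at h1
      have h2 := (zpow_le_zpow_iff_right₀ hN).1 h1
      have := neg_abs_le m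
      rcases le_or_gt 0 k with h3 | h3
      · have := abs_nonneg m
        omega
      · omega
  have hinh : ∃ k : ℤ, fv v x ≤ (Nv v) ^ (4 * k) ∧ fv v y ≤ (Nv v) ^ (6 * k) := by
    refine ⟨|a| + |b|, ha.trans ?_, hb.trans ?_⟩
    · apply zpow_le_zpow_right₀ hN.le
      have := le_abs_self a
      have := abs_nonneg a
      have := abs_nonneg b
      omega
    · apply zpow_le_zpow_right₀ hN.le
      have := le_abs_self b
      have := abs_nonneg a
      have := abs_nonneg b
      omega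
  obtain ⟨k, hk, hmin⟩ := Int.exists_least_of_bdd hlow hinh
  refine ⟨k, hk.1, hk.2, ?_⟩
  by_contra hcon
  push Not at hcon
  have := hmin (k - 1) hcon
  omega

theorem c46 (E : WeierstrassCurve K) (hE : E.Δ ≠ 0) : E.c₄ ≠ 0 ∨ E.c₆ ≠ 0 := by
  by_contra hcon
  push Not at hcon
  have h := E.c_relation
  rw [hcon.1, hcon.2] at h
  have : (1728 : K) * E.Δ ≠ 0 := mul_ne_zero (by norm_num) hE
  apply this
  rw [h]
  ring

theorem fv_nums (v : Pr K) : Real.log (fv v 48) = 4 * Real.log (fv v 2) + Real.log (fv v 3) ∧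
    Real.log (fv v 864) = 5 * Real.log (fv v 2) + 3 * Real.log (fv v 3) ∧
    Real.log (fv v 6) = Real.log (fv v 2) + Real.log (fv v 3) ∧ Real.log (fv v 2) ≤ 0 ∧
    Real.log (fv v 3) ≤ 0 := by
  have h2 : 0 < fv v (2 : K) := (fv v).pos (by norm_num)
  have h3 : 0 < fv v (3 : K) := (fv v).pos (by norm_num)
  refine ⟨?_, ?_, ?_, ?_, ?_⟩
  · rw [show (48 : K) = 2 ^ 4 * 3 by norm_num, map_mul, map_pow, Real.log_mul (by positivity)
      (by positivity), Real.log_pow]
    push_cast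
    ring
  · rw [show (864 : K) = 2 ^ 5 * 3 ^ 3 by norm_num, map_mul, map_pow, map_pow,
      Real.log_mul (by positivity) (by positivity), Real.log_pow, Real.log_pow]
    push_cast
    ring
  · rw [show (6 : K) = 2 * 3 by norm_num, map_mul, Real.log_mul (by positivity) (by positivity)]
  · exact Real.log_nonpos h2.le ((fv_Na v).ofNat 2)
  · exact Real.log_nonpos h3.le ((fv_Na v).ofNat 3)

/-- the minimal discriminant at any prime -/
theorem disc_bound (v : Pr K) (E : WeierstrassCurve K) (hE : E.Δ ≠ 0) :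
    ((discExp v E : ℝ) * Real.log (Nv v) ≤ Real.log (max (fv v (E.c₄ ^ 3 / E.Δ)) 1) +
      10 * Real.log (Nv v) + 12 * (-Real.log (fv v 6))) ∧
    (fv v 2 = 1 → fv v 3 = 1 → 1 < fv v (E.c₄ ^ 3 / E.Δ) →
      (discExp v E : ℝ) * Real.log (Nv v) ≤ Real.log (max (fv v (E.c₄ ^ 3 / E.Δ)) 1) +
        6 * Real.log (Nv v)) := by
  have hN : 1 < Nv v := Nv_one_lt v
  have hN0 : 0 < Nv v := lt_trans one_pos hN
  have hl : 0 < Real.log (Nv v) := log_Nv_pos v
  obtain ⟨n48, n864, n6, n2, n3⟩ := fv_nums v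
  have hD : 0 < fv v E.Δ := (fv v).pos hE
  have hc := c46 E hE
  have hrel := E.c_relation
  have hj1728 : E.c₄ ^ 3 / E.Δ - 1728 = E.c₆ ^ 2 / E.Δ := by
    rw [div_sub' hE]
    congr 1
    linear_combination (-1 : K) * hrel
  obtain ⟨k, k1, k2, k3⟩ := exists_k v (x := E.c₄ / 48) (y := E.c₆ / 864) (by
    rcases hc with h | h
    · exact Or.inl (div_ne_zero h (by norm_num))
    · exact Or.inr (div_ne_zero h (by norm_num)))
  have hd := disc_k v E hE k k1 k2
  set d := (discExp v E : ℝ) * Real.log (Nv v) with hdd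
  set j := E.c₄ ^ 3 / E.Δ with hj
  have hljmax : Real.log (fv v j) ≤ Real.log (max (fv v j) 1) ∨ fv v j = 0 := by
    rcases eq_or_ne (fv v j) 0 with h | h
    · exact Or.inr h
    · left
      exact Real.log_le_log (lt_of_le_of_ne ((fv v).nonneg _) h.symm) (le_max_left _ _)
  have hl1728 : E.c₆ ≠ 0 → 2 * Real.log (fv v E.c₆) - Real.log (fv v E.Δ) ≤
      Real.log (max (fv v j) 1) := by
    intro h6
    have h7 : 0 < fv v E.c₆ := (fv v).pos h6
    have h8 : fv v (j - 1728) ≤ max (fv v j) 1 := by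
      refine ((fv_Na v).sub _ _).trans ?_
      exact max_le_max le_rfl ((fv_Na v).ofNat 1728)
    rw [hj1728, map_div₀, map_pow] at h8
    have h9 := Real.log_le_log (by positivity) h8
    rwa [Real.log_div (by positivity) hD.ne', Real.log_pow] at h9
  have hl0 : E.c₄ ≠ 0 → 3 * Real.log (fv v E.c₄) - Real.log (fv v E.Δ) = Real.log (fv v j) := by
    intro h4
    have h7 : 0 < fv v E.c₄ := (fv v).pos h4
    rw [hj, map_div₀, map_pow, Real.log_div (by positivity) hD.ne', Real.log_pow]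
    push_cast
    ring
  have hpos : ∀ z : K, ∀ m : ℤ, (Nv v) ^ m < fv v z → z ≠ 0 := by
    rintro z m h rfl
    rw [map_zero] at h
    exact absurd h (not_lt.2 (zpow_nonneg hN0.le _))
  have hlz : ∀ z : K, ∀ a : ℤ, fv v z = (Nv v) ^ a → Real.log (fv v z) = a * Real.log (Nv v) := by
    intro z a h
    rw [h, Real.log_zpow]
  constructor
  · rcases k3 with k3 | k3
    · have h4 : E.c₄ ≠ 0 := fun h => hpos _ _ k3 (by rw [h, zero_div])
      have h4' : E.c₄ / 48 ≠ 0 := div_ne_zero h4 (by norm_num)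
      obtain ⟨a, ha⟩ := fv_zpow v h4'
      have h5 := ha
      change fv v (E.c₄ / 48) = (Nv v) ^ a at h5
      rw [h5] at k3
      have h6 := (zpow_lt_zpow_iff_right₀ hN).1 k3
      have h7 : (12 * k : ℝ) ≤ 3 * a + 9 := by exact_mod_cast (by omega : 12 * k ≤ 3 * a + 9)
      have h8 := hlz _ _ h5
      rw [map_div₀, Real.log_div ((fv v).pos h4).ne' ((fv v).pos (by norm_num)).ne', n48] at h8
      have h9 := hl0 h4
      have h10 : Real.log (fv v j) ≤ Real.log (max (fv v j) 1) := by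
        rcases hljmax with h | h
        · exact h
        · exfalso
          have : j ≠ 0 := div_ne_zero (pow_ne_zero _ h4) hE
          exact this ((fv v).eq_zero.1 h)
      have h11 : 12 * (k : ℝ) * Real.log (Nv v) ≤ (3 * a + 9) * Real.log (Nv v) :=
        mul_le_mul_of_nonneg_right h7 hl.le
      rw [n6]
      nlinarith
    · have h4 : E.c₆ ≠ 0 := fun h => hpos _ _ k3 (by rw [h, zero_div])
      have h4' : E.c₆ / 864 ≠ 0 := div_ne_zero h4 (by norm_num)
      obtain ⟨a, ha⟩ := fv_zpow v h4'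
      have h5 := ha
      change fv v (E.c₆ / 864) = (Nv v) ^ a at h5
      rw [h5] at k3
      have h6 := (zpow_lt_zpow_iff_right₀ hN).1 k3
      have h7 : (12 * k : ℝ) ≤ 2 * a + 10 := by exact_mod_cast (by omega : 12 * k ≤ 2 * a + 10)
      have h8 := hlz _ _ h5
      rw [map_div₀, Real.log_div ((fv v).pos h4).ne' ((fv v).pos (by norm_num)).ne', n864] at h8
      have h9 := hl1728 h4
      have h11 : 12 * (k : ℝ) * Real.log (Nv v) ≤ (2 * a + 10) * Real.log (Nv v) :=
        mul_le_mul_of_nonneg_right h7 hl.le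
      rw [n6]
      nlinarith
  · intro e2 e3 hpole
    have l2 : Real.log (fv v 2) = 0 := by rw [e2, Real.log_one]
    have l3 : Real.log (fv v 3) = 0 := by rw [e3, Real.log_one]
    have e1728 : fv v (1728 : K) = 1 := by
      rw [show (1728 : K) = 2 ^ 6 * 3 ^ 3 by norm_num, map_mul, map_pow, map_pow, e2, e3]
      norm_num
    have hjj : fv v (j - 1728) = fv v j := by
      rw [sub_eq_add_neg]
      apply (fv_Na v).eq
      rw [map_neg_eq_map, e1728]
      exact hpole
    have h4 : E.c₄ ≠ 0 := by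
      intro h
      rw [hj, h] at hpole
      norm_num at hpole
    have h6 : E.c₆ ≠ 0 := by
      intro h
      rw [hj1728, h] at hjj
      rw [← hjj] at hpole
      norm_num at hpole
    obtain ⟨a, ha⟩ := fv_zpow v h4
    obtain ⟨b, hb⟩ := fv_zpow v h6
    change fv v E.c₄ = (Nv v) ^ a at ha
    change fv v E.c₆ = (Nv v) ^ b at hb
    have h7 : (Nv v) ^ (3 * a) = (Nv v) ^ (2 * b) := by
      have e1 : fv v E.c₄ ^ 3 = fv v E.c₆ ^ 2 := by
        have h8 : fv v (E.c₆ ^ 2 / E.Δ) = fv v (E.c₄ ^ 3 / E.Δ) := by rw [← hj1728, ← hj, hjj]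
        rw [map_div₀, map_div₀, map_pow, map_pow, div_left_inj' hD.ne'] at h8
        exact h8.symm
      rw [ha, hb, ← zpow_natCast, ← zpow_natCast, ← zpow_mul, ← zpow_mul] at e1
      rw [mul_comm 3 a, mul_comm 2 b]
      exact_mod_cast e1
    have h8 : 3 * a = 2 * b := (zpow_right_injective₀ hN0 hN.ne') h7
    have f48 : fv v (48 : K) = 1 := by
      rw [show (48 : K) = 2 ^ 4 * 3 by norm_num, map_mul, map_pow, e2, e3]
      norm_num
    have f864 : fv v (864 : K) = 1 := by
      rw [show (864 : K) = 2 ^ 5 * 3 ^ 3 by norm_num, map_mul, map_pow, map_pow, e2, e3]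
      norm_num
    rw [map_div₀, map_div₀, f48, f864, div_one, div_one, ha, hb, zpow_lt_zpow_iff_right₀ hN,
      zpow_lt_zpow_iff_right₀ hN] at k3
    have h9 : (12 * k : ℝ) ≤ 3 * a + 6 := by exact_mod_cast (by omega : 12 * k ≤ 3 * a + 6)
    have h10 := hlz _ _ ha
    have h11 := hl0 h4
    have h12 : Real.log (fv v j) ≤ Real.log (max (fv v j) 1) := by
      rcases hljmax with h | h
      · exact h
      · rw [h] at hpole
        linarith
    have h13 : 12 * (k : ℝ) * Real.log (Nv v) ≤ (3 * a + 6) * Real.log (Nv v) :=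
      mul_le_mul_of_nonneg_right h9 hl.le
    nlinarith

/-- the primes dividing six -/
theorem log_six (v : Pr K) : 0 ≤ -Real.log (fv v (6 : K)) ∧
    (fv v (6 : K) ≠ 1 → Real.log (Nv v) ≤ -Real.log (fv v (6 : K))) := by
  have h0 : 0 < fv v (6 : K) := (fv v).pos (by norm_num)
  have h1 : fv v (6 : K) ≤ 1 := (fv_Na v).ofNat 6
  refine ⟨by have := Real.log_nonpos h0.le h1; linarith, fun h => ?_⟩
  obtain ⟨k, hk⟩ := fv_zpow v (x := (6 : K)) (by norm_num)
  change fv v (6 : K) = (Nv v) ^ k at hk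
  have hN := Nv_one_lt v
  have hl := log_Nv_pos v
  have hk0 : k < 0 := by
    by_contra hc
    rw [not_lt] at hc
    have h3 : 1 ≤ fv v (6 : K) := by
      rw [hk]
      exact one_le_zpow₀ hN.le hc
    exact h (le_antisymm h1 h3)
  rw [hk, Real.log_zpow]
  have hk2 : (k : ℝ) ≤ -1 := by exact_mod_cast (by omega : k ≤ -1)
  nlinarith

open Classical in
/-- multiplicative reduction outside six -/
noncomputable def mw (v : Pr K) (E : WeierstrassCurve K) : ℝ :=
  if v ∈ {v : Pr K | ¬ GoodAt v E ∧ SemiAt v E ∧ v.valuation K 6 = 1} then Real.log (Nv v) else 0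

open Classical in
/-- additive reduction outside six -/
noncomputable def aw (v : Pr K) (E : WeierstrassCurve K) : ℝ :=
  if v ∈ {v : Pr K | ¬ SemiAt v E ∧ v.valuation K 6 = 1} then Real.log (Nv v) else 0

theorem mw_nonneg (v : Pr K) (E : WeierstrassCurve K) : 0 ≤ mw v E := by
  unfold mw
  split_ifs
  · exact (log_Nv_pos v).le
  · exact le_rfl

theorem aw_nonneg (v : Pr K) (E : WeierstrassCurve K) : 0 ≤ aw v E := by
  unfold aw
  split_ifs
  · exact (log_Nv_pos v).le
  · exact le_rfl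

theorem semi_of_good {v : Pr K} {E : WeierstrassCurve K} (h : GoodAt v E) : SemiAt v E := by
  obtain ⟨C, h1, h2, h3, h4, h6, h7⟩ := h
  exact ⟨C, h1, h2, h3, h4, h6, Or.inl h7⟩

open Classical in
/-- **the local inequality** -/
theorem loc (v : Pr K) (E : WeierstrassCurve K) (hE : E.Δ ≠ 0) {δ : ℝ} (h0 : 0 ≤ δ) (h3 : δ ≤ 3) :
    (discExp v E : ℝ) * Real.log (Nv v) +
      (1 + δ) * (if Sp (E.c₄ ^ 3 / E.Δ) v then Real.log (Nv v) else 0) ≤
    Real.log (max (fv v (E.c₄ ^ 3 / E.Δ)) 1) + (1 + δ) * mw v E + 10 * aw v E +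
      22 * (-Real.log (fv v (6 : K))) := by
  have hl := log_Nv_pos v
  obtain ⟨s0, s1⟩ := log_six v
  have hm := mw_nonneg v E
  have ha := aw_nonneg v E
  have hlp : 0 ≤ Real.log (max (fv v (E.c₄ ^ 3 / E.Δ)) 1) := Real.log_nonneg (le_max_right _ _)
  have hm' : 0 ≤ (1 + δ) * mw v E := by positivity
  by_cases hg : GoodAt v E
  · have h4 := good_int v E hE hg
    have hsp : ¬ Sp (E.c₄ ^ 3 / E.Δ) v := by
      intro h
      rw [h.2.2] at h4
      exact absurd h4 (not_le.2 (Nv_one_lt v))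
    rw [if_neg hsp, disc_good v E hg]
    push_cast
    linarith
  · by_cases hs : SemiAt v E
    · have h4 := semi_disc v E hE hs
      by_cases hsp : Sp (E.c₄ ^ 3 / E.Δ) v
      · have h6 : fv v (6 : K) = 1 := by
          rw [show (6 : K) = 2 * 3 by norm_num, map_mul, hsp.1, hsp.2.1, one_mul]
        have h7 : mw v E = Real.log (Nv v) := by
          unfold mw
          exact if_pos ⟨hg, hs, (fv_one_iff v).1 h6⟩
        rw [if_pos hsp, h7]
        linarith
      · rw [if_neg hsp]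
        linarith
    · obtain ⟨b1, b2⟩ := disc_bound v E hE
      by_cases h6 : fv v (6 : K) = 1
      · have h7 : aw v E = Real.log (Nv v) := by
          unfold aw
          exact if_pos ⟨hs, (fv_one_iff v).1 h6⟩
        have h8 : Real.log (fv v (6 : K)) = 0 := by rw [h6, Real.log_one]
        rw [h7]
        by_cases hsp : Sp (E.c₄ ^ 3 / E.Δ) v
        · have h9 := b2 hsp.1 hsp.2.1 (by rw [hsp.2.2]; exact Nv_one_lt v)
          rw [if_pos hsp]
          nlinarith
        · rw [if_neg hsp]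
          linarith
      · have hsp : ¬ Sp (E.c₄ ^ 3 / E.Δ) v := by
          intro h
          apply h6
          rw [show (6 : K) = 2 * 3 by norm_num, map_mul, h.1, h.2.1, one_mul]
        have h7 := s1 h6
        rw [if_neg hsp]
        linarith

end Pool.Agent.Y733.FF
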