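import Mathlib
import Pool.Agent.Y733.FF.Loc

/-!
# The Faltings height, the simple poles of `j` and the conductor

The archimedean part follows `Pool/Agent/Y729/FW/Cond.lean` (helper729) and
`Pool/Agent/TH876/FH`.
-/

set_option autoImplicit false
set_option linter.unusedSectionVars false

namespace Pool.Agent.Y733.FF

open NumberField IsDedekindDomain Pool.Agent.H691R3 Pool.Agent.W223.AK Pool.Agent.Y733.LS
open Pool.Agent.TH876.FH (GoodAt IsPeriod arch jInv Hj_height Hj_norm)

section One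

variable {K : Type} [Field K] [NumberField K]

/-- the logarithm of the norm of the minimal discriminant -/
noncomputable def discSum (E : WeierstrassCurve K) : ℝ :=
  ∑ᶠ v : HeightOneSpectrum (𝓞 K), (discExp v E : ℝ) * Real.log (Ideal.absNorm v.asIdeal : ℝ)

/-- the multiplicative part of the conductor, prime to six -/
noncomputable def multN (E : WeierstrassCurve K) : ℝ :=
  ∏ᶠ v ∈ {v : HeightOneSpectrum (𝓞 K) | ¬ GoodAt v E ∧ SemiAt v E ∧ v.valuation K 6 = 1},
    (Ideal.absNorm v.asIdeal : ℝ)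

/-- the additive part of the conductor, prime to six -/
noncomputable def addN (E : WeierstrassCurve K) : ℝ :=
  ∏ᶠ v ∈ {v : HeightOneSpectrum (𝓞 K) | ¬ SemiAt v E ∧ v.valuation K 6 = 1},
    (Ideal.absNorm v.asIdeal : ℝ) ^ 2

open Classical in
theorem log_prodN {S : Set (Pr K)} (hS : S.Finite) (k : ℕ) :
    Real.log (∏ᶠ v ∈ S, (Ideal.absNorm v.asIdeal : ℝ) ^ k) =
      k * ∑ᶠ v : Pr K, if v ∈ S then Real.log (Nv v) else 0 := by
  rw [finprod_mem_eq_finite_toFinset_prod _ hS, Real.log_prod (fun v _ => by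
    have : (0 : ℝ) < (Ideal.absNorm v.asIdeal : ℝ) := lt_trans one_pos (Nv_one_lt v)
    positivity)]
  rw [finsum_eq_sum_of_support_subset (s := hS.toFinset) _ (by
    intro v hv
    rw [Function.mem_support] at hv
    rw [Finset.mem_coe, Set.Finite.mem_toFinset]
    by_contra hcon
    exact hv (if_neg hcon)), Finset.mul_sum]
  refine Finset.sum_congr rfl fun v hv => ?_
  rw [Set.Finite.mem_toFinset] at hv
  rw [if_pos hv, Real.log_pow]
  rfl

theorem fin_m (E : WeierstrassCurve K) (hE : E.Δ ≠ 0) :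
    {v : Pr K | ¬ GoodAt v E ∧ SemiAt v E ∧ v.valuation K 6 = 1}.Finite :=
  (bad_fin E hE).subset fun _ h => h.1

theorem fin_a (E : WeierstrassCurve K) (hE : E.Δ ≠ 0) :
    {v : Pr K | ¬ SemiAt v E ∧ v.valuation K 6 = 1}.Finite :=
  (bad_fin E hE).subset fun _ h hg => h.1 (semi_of_good hg)

theorem log_multN (E : WeierstrassCurve K) (hE : E.Δ ≠ 0) :
    Real.log (multN E) = ∑ᶠ v : Pr K, mw v E := by
  have h := log_prodN (fin_m E hE) 1
  simp only [pow_one, Nat.cast_one, one_mul] at h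
  refine Eq.trans h (finsum_congr fun v => ?_)
  unfold mw
  split_ifs <;> rfl

theorem log_addN (E : WeierstrassCurve K) (hE : E.Δ ≠ 0) :
    Real.log (addN E) = 2 * ∑ᶠ v : Pr K, aw v E := by
  have h := log_prodN (fin_a E hE) 2
  push_cast at h
  refine Eq.trans h ?_
  congr 1
  refine finsum_congr fun v => ?_
  unfold aw
  split_ifs <;> rfl

theorem multN_pos (E : WeierstrassCurve K) (hE : E.Δ ≠ 0) : 0 < multN E := by
  unfold multN
  rw [finprod_mem_eq_finite_toFinset_prod _ (fin_m E hE)]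
  exact Finset.prod_pos fun v _ => lt_trans one_pos (Nv_one_lt v)

theorem addN_pos (E : WeierstrassCurve K) (hE : E.Δ ≠ 0) : 0 < addN E := by
  unfold addN
  rw [finprod_mem_eq_finite_toFinset_prod _ (fin_a E hE)]
  exact Finset.prod_pos fun v _ => pow_pos (lt_trans one_pos (Nv_one_lt v)) 2

theorem log_multN_nonneg (E : WeierstrassCurve K) (hE : E.Δ ≠ 0) : 0 ≤ Real.log (multN E) := by
  rw [log_multN E hE]
  exact finsum_nonneg fun v => mw_nonneg v E

theorem supp_disc (E : WeierstrassCurve K) (hE : E.Δ ≠ 0) :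
    (Function.support fun v : Pr K => (discExp v E : ℝ) * Real.log (Nv v)).Finite := by
  refine (bad_fin E hE).subset ?_
  intro v hv
  rw [Function.mem_support] at hv
  intro hg
  apply hv
  rw [disc_good v E hg]
  simp

theorem supp_mw (E : WeierstrassCurve K) (hE : E.Δ ≠ 0) :
    (Function.support fun v : Pr K => mw v E).Finite := by
  classical
  refine (fin_m E hE).subset ?_
  intro v hv
  rw [Function.mem_support] at hv
  by_contra hcon
  apply hv
  unfold mw
  exact if_neg hcon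

theorem supp_aw (E : WeierstrassCurve K) (hE : E.Δ ≠ 0) :
    (Function.support fun v : Pr K => aw v E).Finite := by
  classical
  refine (fin_a E hE).subset ?_
  intro v hv
  rw [Function.mem_support] at hv
  by_contra hcon
  apply hv
  unfold aw
  exact if_neg hcon

theorem sum_add {f g : Pr K → ℝ} (hf : (Function.support f).Finite)
    (hg : (Function.support g).Finite) :
    ∑ᶠ v : Pr K, (f v + g v) = ∑ᶠ v : Pr K, f v + ∑ᶠ v : Pr K, g v :=
  finsum_add_distrib hf hg

theorem sum_mul (c : ℝ) {f : Pr K → ℝ} (hf : (Function.support f).Finite) :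
    ∑ᶠ v : Pr K, c * f v = c * ∑ᶠ v : Pr K, f v := (mul_finsum f c).symm

theorem disc_sum_le (E : WeierstrassCurve K) (hE : E.Δ ≠ 0) {δ : ℝ} (h0 : 0 ≤ δ) (h3 : δ ≤ 3) :
    discSum E + (1 + δ) * sp (E.c₄ ^ 3 / E.Δ) ≤
      ∑ᶠ v : Pr K, Real.log (max (fv v (E.c₄ ^ 3 / E.Δ)) 1) + (1 + δ) * Real.log (multN E) +
        5 * Real.log (addN E) + 22 * (Module.finrank ℚ K * Real.log 6) := by
  classical
  set j := E.c₄ ^ 3 / E.Δ with hj
  have s1 := supp_disc E hE
  have s2 := Fs_sp j
  have s3 : (Function.support fun v : Pr K => Real.log (max (fv v j) 1)).Finite := Fs_ht j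
  have s4 := supp_mw E hE
  have s5 := supp_aw E hE
  have s6 : (Function.support fun v : Pr K => Real.log (fv v (6 : K))).Finite :=
    Fs_log (K := K) (z := (6 : K)) (by norm_num)
  have s2' := supp_mul (1 + δ) s2
  have s4' := supp_mul (1 + δ) s4
  have s5' := supp_mul 10 s5
  have s6' := supp_mul (-22) s6
  have s34 := supp_add s3 s4'
  have s345 := supp_add s34 s5'
  have key : ∑ᶠ v : Pr K, ((discExp v E : ℝ) * Real.log (Nv v) +
      (1 + δ) * (if Sp j v then Real.log (Nv v) else 0)) ≤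
      ∑ᶠ v : Pr K, (Real.log (max (fv v j) 1) + (1 + δ) * mw v E + 10 * aw v E +
        -22 * Real.log (fv v (6 : K))) := by
    refine finsum_le_finsum' (supp_add s1 s2') (supp_add s345 s6') fun v => ?_
    have h := loc v E hE h0 h3
    rw [← hj] at h
    refine h.trans (le_of_eq ?_)
    ring
  rw [sum_add s1 s2', sum_mul _ s2, sum_add s345 s6', sum_add s34 s5', sum_add s3 s4',
    sum_mul _ s4, sum_mul _ s5, sum_mul _ s6] at key
  have h6 := fin_nat (K := K) (n := 6) (by norm_num)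
  push_cast at h6
  rw [h6] at key
  rw [log_multN E hE, log_addN E hE]
  have e1 : discSum E = ∑ᶠ v : Pr K, (discExp v E : ℝ) * Real.log (Nv v) := rfl
  have e2 : sp j = ∑ᶠ v : Pr K, if Sp j v then Real.log (Nv v) else 0 := by
    unfold sp
    congr!
  rw [e1, e2]
  linarith

end One

/-- the discriminant of an extension -/
theorem disc_ge (K L : Type) [Field K] [NumberField K] [Field L] [NumberField L] [Algebra K L] :
    (Module.finrank K L : ℝ) * Real.log |(discr K : ℝ)| ≤ Real.log |(discr L : ℝ)| := by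
  have h := natAbs_discr_eq_absNorm_differentIdeal_mul_natAbs_discr_pow K (𝓞 K) L (𝓞 L)
  have hK : (1 : ℝ) ≤ |(discr K : ℝ)| := by
    have h1 : (1 : ℤ) ≤ |discr K| := Int.one_le_abs (discr_ne_zero K)
    exact_mod_cast h1
  rw [← Real.log_pow]
  refine Real.log_le_log (pow_pos (by linarith) _) ?_
  have hD : differentIdeal (𝓞 K) (𝓞 L) ≠ 0 := differentIdeal_ne_bot
  have h1 : 1 ≤ Ideal.absNorm (differentIdeal (𝓞 K) (𝓞 L)) :=
    Nat.one_le_iff_ne_zero.2 fun h => hD (Ideal.absNorm_eq_zero_iff.1 h)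
  have h2 : (discr K).natAbs ^ Module.finrank K L ≤ (discr L).natAbs := by
    rw [h]
    exact Nat.le_mul_of_pos_left _ h1
  have h3 : (((discr K).natAbs : ℕ) : ℝ) = |(discr K : ℝ)| := by
    rw [Nat.cast_natAbs, Int.cast_abs]
  have h4 : (((discr L).natAbs : ℕ) : ℝ) = |(discr L : ℝ)| := by
    rw [Nat.cast_natAbs, Int.cast_abs]
  rw [← h3, ← h4]
  exact_mod_cast h2

/-- the archimedean terms -/
theorem arch_le : ∃ c : ℝ, 0 ≤ c ∧
    ∀ (K : Type) [Field K] [NumberField K] (j : K) (τ : InfinitePlace K → UpperHalfPlane),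
      IsPeriod j τ → ∑ w : InfinitePlace K, (w.mult : ℝ) * arch (τ w) ≤
        ∑ w : InfinitePlace K, (w.mult : ℝ) * Real.log (max (w j) 1) +
          c * Module.finrank ℚ K := by
  obtain ⟨c, hc⟩ := Pool.Agent.TH876.FH.ana.2
  refine ⟨|c|, abs_nonneg c, ?_⟩
  intro K _ _ j τ hj
  rw [← sum_mult]
  have h1 : ∑ w : InfinitePlace K, (w.mult : ℝ) * arch (τ w) ≤
      ∑ w : InfinitePlace K, (w.mult : ℝ) * (Real.log (max (w j) 1) + |c|) := by
    refine Finset.sum_le_sum fun w _ => ?_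
    apply mul_le_mul_of_nonneg_left _ (Nat.cast_nonneg _)
    rw [← Hj_norm j τ hj w]
    exact (hc (τ w)).trans (by linarith [le_abs_self c])
  have h2 : ∑ w : InfinitePlace K, (w.mult : ℝ) * (Real.log (max (w j) 1) + |c|) =
      ∑ w : InfinitePlace K, (w.mult : ℝ) * Real.log (max (w j) 1) +
        |c| * ∑ w : InfinitePlace K, (w.mult : ℝ) := by
    rw [Finset.mul_sum, ← Finset.sum_add_distrib]
    refine Finset.sum_congr rfl fun w _ => ?_
    ring
  linarith

/-- **Frey's inequality** for all curves whose invariant has enough simple poles -/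
theorem frey : ∃ C : ℝ, 0 < C ∧ ∀ (K : Type) [Field K] [NumberField K] (E : WeierstrassCurve K)
    (τ : InfinitePlace K → UpperHalfPlane) (δ : ℝ), E.Δ ≠ 0 → IsPeriod (E.c₄ ^ 3 / E.Δ) τ →
    0 ≤ δ → δ ≤ 3 → ht (E.c₄ ^ 3 / E.Δ) ≤ (1 + δ) * sp (E.c₄ ^ 3 / E.Δ) →
    discSum E + ∑ w : InfinitePlace K, (w.mult : ℝ) * arch (τ w) ≤
      (1 + δ) * Real.log (multN E) + 5 * Real.log (addN E) + C * Module.finrank ℚ K := by
  obtain ⟨c, hc0, hc⟩ := arch_le
  have l6 : 0 < Real.log 6 := Real.log_pos (by norm_num)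
  refine ⟨c + 22 * Real.log 6, by positivity, ?_⟩
  intro K _ _ E τ δ hE hτ h0 h3 hsp
  have h1 := disc_sum_le E hE h0 h3
  have h2 := hc K _ τ hτ
  have h4 : ht (E.c₄ ^ 3 / E.Δ) =
      ∑ w : InfinitePlace K, (w.mult : ℝ) * Real.log (max (w (E.c₄ ^ 3 / E.Δ)) 1) +
      ∑ᶠ v : HeightOneSpectrum (𝓞 K), Real.log (max (FinitePlace.mk v (E.c₄ ^ 3 / E.Δ)) 1) := by
    rw [← Hj_height, logHeight_eq, ht_eq_Sa]
  have h5 : ∑ᶠ v : Pr K, Real.log (max (fv v (E.c₄ ^ 3 / E.Δ)) 1) =
    ∑ᶠ v : HeightOneSpectrum (𝓞 K), Real.log (max (FinitePlace.mk v (E.c₄ ^ 3 / E.Δ)) 1) := rfl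
  rw [h5] at h1
  linarith

/-- **the exceptional invariants** -/
theorem exc_frey {δ ε : ℝ} (h0 : 0 ≤ δ) (hε : 0 < ε) : ∃ A : ℝ, 0 ≤ A ∧
    ∀ (K : Type) [Field K] [NumberField K] (X : ℝ) (S : Finset K), 0 ≤ X →
      (∀ j ∈ S, ht j ≤ X ∧ ¬ (ht j ≤ (1 + δ) * sp j)) →
        (S.card : ℝ) ≤ Real.exp (Module.finrank ℚ K * A +
          (2 - δ / (1 + δ) / 2 + ε) * X) := by
  classical
  obtain ⟨A, hA, hspc⟩ := sp_count hε
  have l3 : 0 ≤ Real.log 3 := Real.log_nonneg (by norm_num)
  refine ⟨A + Real.log 3, by positivity, ?_⟩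
  intro K _ _ X S hX hS
  set n := Module.finrank ℚ K with hn
  have hn1 : (1 : ℝ) ≤ n := by exact_mod_cast Module.finrank_pos (R := ℚ) (M := K)
  have hd : 0 < 1 + δ := by linarith
  have hη1 : δ / (1 + δ) ≤ 1 := by
    rw [div_le_one hd]
    linarith
  have h1 := hspc K (δ / (1 + δ)) X (S.filter fun j => Pt j) (by linarith) (by
    intro j hj
    rw [Finset.mem_filter] at hj
    obtain ⟨h2, h3⟩ := hS j hj.1
    refine ⟨hj.2, h2, ?_⟩
    push Not at h3
    have e : 1 - δ / (1 + δ) = 1 / (1 + δ) := by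
      field_simp
      ring
    rw [e, one_div, inv_mul_eq_div, le_div_iff₀ hd]
    linarith)
  have h2 : S ⊆ (S.filter fun j => Pt j) ∪ {0, -1} := by
    intro j hj
    rw [Finset.mem_union, Finset.mem_filter]
    by_cases h : Pt j
    · exact Or.inl ⟨hj, h⟩
    · right
      rw [Finset.mem_insert, Finset.mem_singleton]
      unfold Pt at h
      by_contra hcon
      push Not at hcon
      apply h
      refine ⟨hcon.1, ?_⟩
      intro h4
      apply hcon.2
      linear_combination h4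
  have h3 : (S.card : ℝ) ≤ ((S.filter fun j => Pt j).card : ℝ) + 2 := by
    have h4 := (Finset.card_le_card h2).trans (Finset.card_union_le _ _)
    have h5 : ({0, -1} : Finset K).card ≤ 2 := Finset.card_le_two
    exact_mod_cast h4.trans (Nat.add_le_add_left h5 _)
  have h4 : (1 : ℝ) ≤ Real.exp (n * A + (2 - δ / (1 + δ) / 2 + ε) * X) := by
    apply Real.one_le_exp
    have : 0 ≤ (2 - δ / (1 + δ) / 2 + ε) * X := mul_nonneg (by linarith) hX
    positivity
  calc (S.card : ℝ) ≤ 3 * Real.exp (n * A + (2 - δ / (1 + δ) / 2 + ε) * X) := by linarith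
    _ = Real.exp (Real.log 3 + (n * A + (2 - δ / (1 + δ) / 2 + ε) * X)) := by
        rw [Real.exp_add (Real.log 3), Real.exp_log (by norm_num)]
    _ ≤ _ := by
        apply Real.exp_le_exp.2
        nlinarith

end Pool.Agent.Y733.FF
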