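import Mathlib
import Pool.Agent.Y733.FF.Main
import Pool.Agent.Y733.LS.Fin

/-!
# The relative Faltings height and the lower bound of Lang and Silverman
-/

set_option autoImplicit false
set_option linter.unusedSectionVars false

namespace Pool.Agent.Y733.FF

open NumberField IsDedekindDomain Pool.Agent.H691R3 Pool.Agent.W223.AK Pool.Agent.Y733.LS
  Pool.Agent.TH942 Pool.Agent.TH910.LS
open Pool.Agent.TH876.FH (GoodAt IsPeriod arch jInv Hj_height Hj_norm)

section One

variable {K : Type} [Field K] [NumberField K]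

/-- a local inequality for all curves -/
theorem loc0 (v : Pr K) (E : WeierstrassCurve K) (hE : E.Δ ≠ 0) :
    (discExp v E : ℝ) * Real.log (Nv v) ≤
    Real.log (max (fv v (E.c₄ ^ 3 / E.Δ)) 1) + 10 * aw v E +
      -22 * Real.log (fv v (6 : K)) := by
  have hl := log_Nv_pos v
  obtain ⟨s0, s1⟩ := log_six v
  have ha := aw_nonneg v E
  have hlp : 0 ≤ Real.log (max (fv v (E.c₄ ^ 3 / E.Δ)) 1) := Real.log_nonneg (le_max_right _ _)
  by_cases hs : SemiAt v E
  · have h4 := semi_disc v E hE hs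
    linarith
  · obtain ⟨b1, -⟩ := disc_bound v E hE
    by_cases h6 : fv v (6 : K) = 1
    · have h7 : aw v E = Real.log (Nv v) := by
        unfold aw
        exact if_pos ⟨hs, (fv_one_iff v).1 h6⟩
      have h8 : Real.log (fv v (6 : K)) = 0 := by rw [h6, Real.log_one]
      rw [h7]
      rw [h8] at b1 ⊢
      linarith
    · have h7 := s1 h6
      linarith

theorem disc_sum0 (E : WeierstrassCurve K) (hE : E.Δ ≠ 0) :
    discSum E ≤ ∑ᶠ v : Pr K, Real.log (max (fv v (E.c₄ ^ 3 / E.Δ)) 1) +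
        10 * ∑ᶠ v : Pr K, aw v E + 22 * (Module.finrank ℚ K * Real.log 6) := by
  classical
  set j := E.c₄ ^ 3 / E.Δ with hj
  have s1 := supp_disc E hE
  have s3 : (Function.support fun v : Pr K => Real.log (max (fv v j) 1)).Finite := Fs_ht j
  have s5 := supp_aw E hE
  have s6 : (Function.support fun v : Pr K => Real.log (fv v (6 : K))).Finite :=
    Fs_log (K := K) (z := (6 : K)) (by norm_num)
  have s5' := supp_mul 10 s5
  have s6' := supp_mul (-22) s6
  have s35 := supp_add s3 s5'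
  have key : ∑ᶠ v : Pr K, ((discExp v E : ℝ) * Real.log (Nv v)) ≤
      ∑ᶠ v : Pr K, (Real.log (max (fv v j) 1) + 10 * aw v E +
        -22 * Real.log (fv v (6 : K))) :=
    finsum_le_finsum' s1 (supp_add s35 s6') fun v => loc0 v E hE
  rw [sum_add s35 s6', sum_add s3 s5', sum_mul _ s5, sum_mul _ s6] at key
  have h6 := fin_nat (K := K) (n := 6) (by norm_num)
  push_cast at h6
  rw [h6] at key
  have e1 : discSum E = ∑ᶠ v : Pr K, (discExp v E : ℝ) * Real.log (Nv v) := rfl
  rw [e1]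
  linarith

theorem sw_Δ (a b : K) : (sw a b).Δ = -16 * dl a b := by
  unfold dl sw
  simp only [WeierstrassCurve.Δ, WeierstrassCurve.b₂, WeierstrassCurve.b₄, WeierstrassCurve.b₆,
    WeierstrassCurve.b₈]
  ring

theorem sw_c₄ (a b : K) : (sw a b).c₄ = -48 * a := by
  unfold sw
  simp only [WeierstrassCurve.c₄, WeierstrassCurve.b₂, WeierstrassCurve.b₄]
  ring

theorem sw_j (a b : K) (hD : dl a b ≠ 0) : (sw a b).c₄ ^ 3 / (sw a b).Δ = jj a b := by
  rw [sw_Δ, sw_c₄, jj_eq, div_eq_div_iff (mul_ne_zero (by norm_num) hD) hD]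
  ring

/-- additive reduction outside six is bad in the sense of the lower bound -/
theorem bad_of_add {a b : K} (hD : dl a b ≠ 0) (v : Pr K)
    (h : ¬ SemiAt v (sw a b) ∧ v.valuation K 6 = 1) : BadAt a b v := by
  by_contra hcon
  unfold BadAt at hcon
  push Not at hcon
  obtain ⟨⟨u, hu⟩, hj⟩ := hcon
  obtain ⟨hs, h6⟩ := h
  apply hs
  apply semi_of_good
  rw [← fv_one_iff v] at h6
  have e2 : fv v (2 : K) ≤ 1 := (fv_Na v).ofNat 2
  have e3 : fv v (3 : K) ≤ 1 := (fv_Na v).ofNat 3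
  have e6 : fv v (2 : K) * fv v (3 : K) = 1 := by
    rw [← map_mul, ← h6]
    norm_num
  have p2 : 0 < fv v (2 : K) := (fv v).pos (by norm_num)
  have p3 : 0 < fv v (3 : K) := (fv v).pos (by norm_num)
  have f2 : fv v (2 : K) = 1 := by
    apply le_antisymm e2
    nlinarith
  have f3 : fv v (3 : K) = 1 := by
    rw [f2, one_mul] at e6
    exact e6
  have hdl : 0 < fv v (dl a b) := (fv v).pos hD
  have hu0 : u ≠ 0 := by
    rintro rfl
    rw [hu, map_zero] at hdl
    norm_num at hdl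
  have hup : 0 < fv v u := (fv v).pos hu0
  have f6912 : fv v (6912 : K) = 1 := by
    rw [show (6912 : K) = 2 ^ 8 * 3 ^ 3 by norm_num, map_mul, map_pow, map_pow, f2, f3]
    norm_num
  have f46656 : fv v (46656 : K) = 1 := by
    rw [show (46656 : K) = 2 ^ 6 * 3 ^ 6 by norm_num, map_mul, map_pow, map_pow, f2, f3]
    norm_num
  have f16 : fv v (16 : K) = 1 := by
    rw [show (16 : K) = 2 ^ 4 by norm_num, map_pow, f2]
    norm_num
  have ha : fv v a ≤ fv v u ^ 4 := by
    have h1 := hj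
    rw [w_jj, f6912, one_mul, div_le_one hdl, hu] at h1
    have h2 : fv v a ^ 3 ≤ (fv v u ^ 4) ^ 3 := by
      refine h1.trans (le_of_eq ?_)
      ring
    exact le_of_pow_le_pow_left₀ (by norm_num) (by positivity) h2
  have hb : fv v b ≤ fv v u ^ 6 := by
    have h1 : fv v (jj a b - 1728) ≤ 1 := by
      refine ((fv_Na v).sub _ _).trans ?_
      exact max_le hj ((fv_Na v).ofNat 1728)
    rw [w_jj_sub _ a b hD, f46656, one_mul, div_le_one hdl, hu] at h1
    have h2 : fv v b ^ 2 ≤ (fv v u ^ 6) ^ 2 := by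
      refine h1.trans (le_of_eq ?_)
      ring
    exact le_of_pow_le_pow_left₀ (by norm_num) (by positivity) h2
  refine ⟨⟨Units.mk0 u hu0, 0, 0, 0⟩, ?_, ?_, ?_, ?_, ?_, ?_⟩
  · rw [WeierstrassCurve.variableChange_a₁]
    simp [sw]
  · rw [WeierstrassCurve.variableChange_a₂]
    simp [sw]
  · rw [WeierstrassCurve.variableChange_a₃]
    simp [sw]
  · rw [WeierstrassCurve.variableChange_a₄, ← fv_le_one_iff v]
    have : ((((⟨Units.mk0 u hu0, 0, 0, 0⟩ : WeierstrassCurve.VariableChange K).u)⁻¹ : Kˣ) : K) =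
      u⁻¹ := rfl
    rw [this]
    simp only [sw, mul_zero, sub_zero, add_zero, ne_eq, OfNat.ofNat_ne_zero,
      not_false_eq_true, zero_pow]
    rw [map_mul, map_pow, map_inv₀, inv_pow, inv_mul_le_iff₀ (by positivity), mul_one]
    exact ha
  · rw [WeierstrassCurve.variableChange_a₆, ← fv_le_one_iff v]
    have : ((((⟨Units.mk0 u hu0, 0, 0, 0⟩ : WeierstrassCurve.VariableChange K).u)⁻¹ : Kˣ) : K) =
      u⁻¹ := rfl
    rw [this]
    simp only [sw, mul_zero, zero_mul, sub_zero, add_zero, ne_eq, OfNat.ofNat_ne_zero,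
      not_false_eq_true, zero_pow]
    rw [map_mul, map_pow, map_inv₀, inv_pow, inv_mul_le_iff₀ (by positivity), mul_one]
    exact hb
  · rw [WeierstrassCurve.variableChange_Δ, ← fv_one_iff v, sw_Δ]
    have : ((((⟨Units.mk0 u hu0, 0, 0, 0⟩ : WeierstrassCurve.VariableChange K).u)⁻¹ : Kˣ) : K) =
      u⁻¹ := rfl
    rw [this, map_mul, map_mul, map_pow, map_inv₀, map_neg_eq_map, f16, one_mul, hu, inv_pow]
    exact inv_mul_cancel₀ (by positivity)

end One

/-- the relative Faltings height of all curves -/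
theorem fal_le : ∃ C : ℝ, 0 < C ∧ ∀ (K : Type) [Field K] [NumberField K] (a b : K)
    (τ : InfinitePlace K → UpperHalfPlane), dl a b ≠ 0 → IsPeriod (jj a b) τ →
    ∃ S : Finset (Pr K), (∀ v ∈ S, BadAt a b v) ∧
    discSum (sw a b) + ∑ w : InfinitePlace K, (w.mult : ℝ) * arch (τ w) ≤
      ht (jj a b) + 10 * ∑ v ∈ S, Real.log (Nv v) + C * Module.finrank ℚ K := by
  classical
  obtain ⟨c, hc0, hc⟩ := arch_le
  have l6 : 0 < Real.log 6 := Real.log_pos (by norm_num)
  refine ⟨c + 22 * Real.log 6, by positivity, ?_⟩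
  intro K _ _ a b τ hD hτ
  have hE : (sw a b).Δ ≠ 0 := by
    rw [sw_Δ]
    exact mul_ne_zero (by norm_num) hD
  have h1 := disc_sum0 (sw a b) hE
  rw [sw_j a b hD] at h1
  have h2 := hc K _ τ hτ
  have h4 : ht (jj a b) =
      ∑ w : InfinitePlace K, (w.mult : ℝ) * Real.log (max (w (jj a b)) 1) +
      ∑ᶠ v : HeightOneSpectrum (𝓞 K), Real.log (max (FinitePlace.mk v (jj a b)) 1) := by
    rw [← Hj_height, logHeight_eq, ht_eq_Sa]
  have h5 : ∑ᶠ v : Pr K, Real.log (max (fv v (jj a b)) 1) =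
    ∑ᶠ v : HeightOneSpectrum (𝓞 K), Real.log (max (FinitePlace.mk v (jj a b)) 1) := rfl
  rw [h5] at h1
  have hfin := fin_a (sw a b) hE
  have h6 : ∑ᶠ v : Pr K, aw v (sw a b) = ∑ v ∈ hfin.toFinset, Real.log (Nv v) := by
    rw [finsum_eq_sum_of_support_subset (s := hfin.toFinset) _ (by
      intro v hv
      rw [Function.mem_support] at hv
      rw [Finset.mem_coe, Set.Finite.mem_toFinset]
      by_contra hcon
      apply hv
      unfold aw
      exact if_neg hcon)]
    refine Finset.sum_congr rfl fun v hv => ?_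
    rw [Set.Finite.mem_toFinset] at hv
    unfold aw
    exact if_pos hv
  refine ⟨hfin.toFinset, fun v hv => ?_, ?_⟩
  · rw [Set.Finite.mem_toFinset] at hv
    exact bad_of_add hD v hv
  · rw [← h6]
    linarith

open Classical in
/-- **the lower bound with the relative Faltings height** -/
theorem strong : ∃ c₀ : ℝ, 0 < c₀ ∧ ∀ (K : Type) [Field K] [NumberField K] (c : ℝ) (j : K), 0 ≤ c →
    LSP c j → ∀ (a b : K) (τ : InfinitePlace K → UpperHalfPlane), dl a b ≠ 0 → jj a b = j →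
    IsPeriod (jj a b) τ → ∀ (g : ℕ) (M : Matrix (Fin g) (Fin g) ℤ),
    (M.map (Int.cast : ℤ → ℝ)).PosDef → ∀ P : Fin g → SPt a b, P ≠ 0 →
      c₀ * c * (discSum (sw a b) + ∑ w : InfinitePlace K, (w.mult : ℝ) * arch (τ w)) ≤
        chatM M P ∧ c₀ * c * Module.finrank ℚ K ≤ chatM M P := by
  obtain ⟨C, hC, h⟩ := fal_le
  refine ⟨1 / (10 + C), by positivity, ?_⟩
  intro K _ _ c j hc hj a b τ hD hab hτ g M hM P hP
  have hn : (0 : ℝ) < Module.finrank ℚ K := by exact_mod_cast Module.finrank_pos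
  obtain ⟨S, hS, h1⟩ := h K a b τ hD hτ
  have h2 := hj a b hD hab S hS g M hM P hP
  rw [← hab] at h2
  have h3 : 0 ≤ ht (jj a b) := ht_nonneg _
  have h4 : 0 ≤ ∑ v ∈ S, Real.log (Nv v) := Finset.sum_nonneg fun v _ => (log_Nv_pos v).le
  have h10 : 0 < 10 + C := by positivity
  constructor
  · refine le_trans ?_ h2
    have e : 1 / (10 + C) * c = c / (10 + C) := by ring
    rw [e, div_mul_eq_mul_div, div_le_iff₀ h10, mul_assoc]
    apply mul_le_mul_of_nonneg_left _ hc
    nlinarith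
  · refine le_trans ?_ h2
    have e : 1 / (10 + C) * c = c / (10 + C) := by ring
    rw [e, div_mul_eq_mul_div, div_le_iff₀ h10, mul_assoc]
    apply mul_le_mul_of_nonneg_left _ hc
    nlinarith

end Pool.Agent.Y733.FF
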